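import Mathlib
import Pool.Agent.H964.CW.Stm
import Pool.Agent.H353.QC.BC

/-! # Project CW (helper964), task BC2 (helper350): goodness after a block, with the probability of small
masses (adapted from task BC of helper353) -/

set_option autoImplicit false

open MeasureTheory ProbabilityTheory Filter Finset

namespace Pool.Agent.H350.CW

open Pool.Agent.H964.QC Pool.Agent.H964.CW
open Pool.Agent.H353.QC (ov_div ov_nonneg sqrt_le RR_mono)

theorem t_BC2 : S_BC2 := by
  intro hRR hOV hCLN hMEAS hM2 hDUAL C0 κ hC0 hκ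
  obtain ⟨Cc, hCc1, hCc⟩ := hCLN
  refine ⟨8 * Cc + 2 * (1 + C0), by linarith, ?_⟩
  intro V _ _ N0 W Ω _ P _ s2 η w t T L' B' q hs2 hN hT htT hN0 hL' hCL hB' hq0 hq1 hw0 hw1 hwc hwd
    hovL
  obtain ⟨n0, hn0⟩ : ∃ n0, n0 = t + T := ⟨_, rfl⟩
  have hn0T : n0 ≤ 2 * T := by omega
  have hn01 : 1 ≤ n0 := by omega
  have hn0r : (1 : ℝ) ≤ n0 := by exact_mod_cast hn01
  have hL1 : 1 ≤ L' := by linarith
  have hLpos : 0 < L' := by linarith
  -- facts about the parameters
  have hRRT : RR T ≤ RR (t + T) := RR_mono hRR (by omega)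
  have hRR0 : 0 ≤ RR T := Finset.sum_nonneg fun i _ => (hRR.1 i).le
  have hinv : L' ≤ 1 / s2 - RR T := by rw [hL']; linarith
  have hsR : s2 * RR T < 1 := by
    have h1 : RR T < 1 / s2 := by linarith
    rw [lt_div_iff₀ hs2] at h1
    linarith
  obtain ⟨E, hE⟩ : ∃ E, E = 1 / (1 - s2 * RR T) := ⟨_, rfl⟩
  have hE1 : 0 < 1 - s2 * RR T := by linarith
  have hsE : s2 * E = 1 / (1 / s2 - RR T) := by
    rw [hE]
    have h1 : 1 / s2 - RR T = (1 - s2 * RR T) / s2 := by field_simp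
    rw [h1]
    field_simp
  have hsEL : s2 * E ≤ 1 / L' := by
    rw [hsE]
    exact one_div_le_one_div_of_le hLpos hinv
  have hsE0 : 0 ≤ s2 * E := by
    rw [hE]
    positivity
  -- the noise
  obtain ⟨-, -, -, -, hmf, -, -, -, -, hf4, hfm⟩ := hMEAS V C0 N0 W Ω P s2 κ η hN
  obtain ⟨-, -, hM2c⟩ := hM2 V C0 N0 W Ω P s2 κ η hs2.le hN w hw0 T (by omega)
  obtain ⟨-, -, -, -, -, -, hov1, -, -⟩ := hOV V C0 N0 W w hw0
  obtain ⟨hovr, -, -⟩ := hov1 hw1
  -- the forward weight
  obtain ⟨F, hF⟩ : ∃ F : Ω → V → ℝ, F = fun ω => fwd W (cfg η ω) T w := ⟨_, rfl⟩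
  have hF0 : ∀ ω z, 0 ≤ F ω z := by
    intro ω z
    rw [hF]
    exact (hDUAL V C0 N0 W (cfg η ω) w 0 T).2.2.2.1 (fun n v => hN.gt n v ω) hw0 z
  have hFc : ∀ ω z, F ω z ≠ 0 → W.cls (t + T) z := by
    intro ω z
    rw [hF]
    exact (hDUAL V C0 N0 W (cfg η ω) w 0 T).2.2.2.2.1 t hwc z
  have hFM : ∀ ω, ∑ z, F ω z = 1 + XX W w T (cfg η ω) T := by
    intro ω
    have h1 := (hDUAL V C0 N0 W (cfg η ω) w 0 T).2.1
    have h2 := (hDUAL V C0 N0 W (cfg η ω) w 0 T).2.2.1
    rw [h1, hw1] at h2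
    rw [hF, h2]
    ring
  have hF4 : ∀ z, MemLp (fun ω => F ω z) 4 P := by
    intro z
    rw [hF]
    exact hf4 w T z
  have hFi : ∀ z, Integrable (fun ω => F ω z) P := fun z =>
    (hF4 z).integrable (by norm_num)
  have hFe : ∀ z, ∫ ω, F ω z ∂P = wt W w T z := by
    intro z
    rw [hF]
    exact hfm w T z
  have hovi : ∀ m, Integrable (fun ω => ov W (F ω) m) P := by
    intro m
    unfold ov
    refine integrable_finsetSum _ fun z _ => ?_
    have h1 : MemLp (fun ω => wt W (F ω) m z) 2 P := by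
      unfold wt
      refine memLp_finsetSum _ fun x _ => ?_
      have h2 : MemLp (fun ω => F ω x) 2 P := (hF4 x).mono_exponent (by norm_num)
      exact h2.mul_const _
    exact h1.integrable_sq
  -- the expectation of the closeness functional
  obtain ⟨Y, hY⟩ : ∃ Y : Ω → ℝ, Y = fun ω => ∑ m ∈ Finset.Icc 1 n0, 1 / Real.sqrt m * ov W (F ω) m :=
    ⟨_, rfl⟩
  have hY0 : ∀ ω, 0 ≤ Y ω := by
    intro ω
    rw [hY]
    exact Finset.sum_nonneg fun m _ => mul_nonneg (by positivity) (ov_nonneg W _ m)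
  have hYi : Integrable Y P := by
    rw [hY]
    exact integrable_finsetSum _ fun m _ => (hovi m).const_mul _
  have hEm : ∀ m, m + T ≤ N0 → ∫ ω, ov W (F ω) m ∂P =
      ov W w (m + T) + s2 * ∑ k ∈ Finset.Icc 1 T, ov W w k * DD s2 m (T - k) := by
    intro m hm
    rw [hF]
    exact hM2c m hm
  obtain ⟨a, ha⟩ : ∃ a : ℕ → ℝ, a = fun k => if k ≤ N0 then ov W w k else 0 := ⟨_, rfl⟩
  have haT : ∀ k ∈ Finset.Icc 1 T, a k = ov W w k := by
    intro k hk
    rw [Finset.mem_Icc] at hk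
    rw [ha]
    exact if_pos (by omega)
  have haS : ∑ k ∈ Finset.Icc 1 T, a k = ∑ k ∈ Finset.Icc 1 T, ov W w k :=
    Finset.sum_congr rfl haT
  have hcln := hCc s2 E T a hs2 hT hsR hE (by
    have h1 : Cc * s2 * E = Cc * (s2 * E) := by ring
    rw [h1]
    calc Cc * (s2 * E) ≤ Cc * (1 / L') := mul_le_mul_of_nonneg_left hsEL (by linarith)
      _ = Cc / L' := by ring
      _ ≤ 1 := by
        rw [div_le_one hLpos]
        linarith) (by
    intro k
    rw [ha]
    show 0 ≤ if k ≤ N0 then ov W w k else 0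
    split_ifs
    · exact ov_nonneg W w k
    · exact le_rfl) (by
    intro k _
    rw [ha]
    show (if k ≤ N0 then ov W w k else 0) ≤ rr k
    split_ifs with h
    · exact hovr k h
    · exact (hRR.1 k).le) (by
    rw [haS]
    calc s2 * E * ∑ k ∈ Finset.Icc 1 T, ov W w k ≤ 1 / L' * L' :=
          mul_le_mul hsEL hovL (Finset.sum_nonneg fun k _ => ov_nonneg W w k) (by positivity)
      _ = 1 := by field_simp)
  have hEY : ∫ ω, Y ω ∂P ≤ 2 * Cc / Real.sqrt n0 := by
    have h1 : ∫ ω, Y ω ∂P = ∑ m ∈ Finset.Icc 1 n0, 1 / Real.sqrt m * ∫ ω, ov W (F ω) m ∂P := by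
      rw [hY]
      rw [integral_finsetSum _ fun m _ => (hovi m).const_mul _]
      refine Finset.sum_congr rfl fun m _ => ?_
      rw [integral_const_mul]
    have h2 : ∑ m ∈ Finset.Icc 1 n0, 1 / Real.sqrt m * ∫ ω, ov W (F ω) m ∂P ≤
        ∑ m ∈ Finset.Icc 1 (2 * T), 1 / Real.sqrt m * ∫ ω, ov W (F ω) m ∂P := by
      refine Finset.sum_le_sum_of_subset_of_nonneg ?_ ?_
      · intro m hm
        rw [Finset.mem_Icc] at hm ⊢
        omega
      · intro m _ _
        exact mul_nonneg (by positivity) (integral_nonneg fun ω => ov_nonneg W _ m)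
    have h3 : ∑ m ∈ Finset.Icc 1 (2 * T), 1 / Real.sqrt m * ∫ ω, ov W (F ω) m ∂P ≤
        ∑ m ∈ Finset.Icc 1 (2 * T), 1 / Real.sqrt m *
          (rr (m + T) + s2 * ∑ k ∈ Finset.Icc 1 T, a k * DD s2 m (T - k)) := by
      refine Finset.sum_le_sum fun m hm => ?_
      rw [Finset.mem_Icc] at hm
      refine mul_le_mul_of_nonneg_left ?_ (by positivity)
      rw [hEm m (by omega)]
      have h4 : ∑ k ∈ Finset.Icc 1 T, a k * DD s2 m (T - k) =
          ∑ k ∈ Finset.Icc 1 T, ov W w k * DD s2 m (T - k) :=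
        Finset.sum_congr rfl fun k hk => by rw [haT k hk]
      rw [h4]
      have h5 := hovr (m + T) (by omega)
      linarith
    have h4 : Cc / Real.sqrt T ≤ 2 * Cc / Real.sqrt n0 := by
      have hT0 : (0 : ℝ) < T := by exact_mod_cast hT
      have h5 : Real.sqrt n0 ≤ 2 * Real.sqrt T := by
        have h6 : (n0 : ℝ) ≤ 4 * T := by
          have : (n0 : ℝ) ≤ 2 * T := by exact_mod_cast hn0T
          linarith
        have h7 : Real.sqrt n0 ≤ Real.sqrt (4 * T) := Real.sqrt_le_sqrt h6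
        have h8 : Real.sqrt (4 * (T : ℝ)) = 2 * Real.sqrt T := by
          rw [Real.sqrt_mul (by norm_num), show (4 : ℝ) = 2 ^ 2 by norm_num,
            Real.sqrt_sq (by norm_num)]
        rw [h8] at h7
        exact h7
      rw [div_le_div_iff₀ (Real.sqrt_pos.2 hT0) (Real.sqrt_pos.2 (by linarith))]
      nlinarith
    rw [h1]
    exact h2.trans (h3.trans (hcln.trans h4))
  -- the expectation of the spread
  obtain ⟨D, hD⟩ : ∃ D : Ω → ℝ, D = fun ω => ∑ z, F ω z * W.d z := ⟨_, rfl⟩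
  have hD0 : ∀ ω, 0 ≤ D ω := by
    intro ω
    rw [hD]
    exact Finset.sum_nonneg fun z _ => mul_nonneg (hF0 ω z) (W.d_nonneg z)
  have hDi : Integrable D P := by
    rw [hD]
    exact integrable_finsetSum _ fun z _ => (hFi z).mul_const _
  have hED : ∫ ω, D ω ∂P ≤ (1 + C0) * n0 := by
    have h1 : ∫ ω, D ω ∂P = ∑ z, wt W w T z * W.d z := by
      rw [hD]
      rw [integral_finsetSum _ fun z _ => (hFi z).mul_const _]
      refine Finset.sum_congr rfl fun z _ => ?_
      rw [integral_mul_const, hFe]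
    have h2 : ∑ z, wt W w T z * W.d z = ∑ x, w x * ∑ z, W.K T x z * W.d z := by
      unfold wt
      simp only [Finset.sum_mul, Finset.mul_sum]
      rw [Finset.sum_comm]
      refine Finset.sum_congr rfl fun x _ => Finset.sum_congr rfl fun z _ => by ring
    have h3 : ∑ x, w x * ∑ z, W.K T x z * W.d z ≤ ∑ x, (w x * W.d x + w x * (C0 * T)) := by
      refine Finset.sum_le_sum fun x _ => ?_
      rw [← mul_add]
      exact mul_le_mul_of_nonneg_left (W.K_d T x (by omega)) (hw0 x)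
    rw [Finset.sum_add_distrib, ← Finset.sum_mul, hw1, one_mul] at h3
    rw [h1, h2]
    refine h3.trans ?_
    rw [← hn0] at hwd
    have h4 : (T : ℝ) ≤ n0 := by exact_mod_cast (by omega : T ≤ n0)
    nlinarith
  -- Markov
  have hn0s : 0 < Real.sqrt n0 := Real.sqrt_pos.2 (by linarith)
  have hB0 : 0 < B' := by linarith
  have hMY : P.real {ω | B' * q ^ 2 / Real.sqrt n0 ≤ Y ω} ≤ 8 * Cc / (B' * q ^ 2) := by
    have h1 := mul_meas_ge_le_integral_of_nonneg (Filter.Eventually.of_forall hY0) hYi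
      (B' * q ^ 2 / Real.sqrt n0)
    have h2 : 0 < B' * q ^ 2 / Real.sqrt n0 := by positivity
    have h3 := h1.trans hEY
    rw [mul_comm, ← le_div_iff₀ h2] at h3
    refine h3.trans ?_
    have h4 : 2 * Cc / Real.sqrt n0 / (B' * q ^ 2 / Real.sqrt n0) = 2 * Cc / (B' * q ^ 2) := by
      field_simp
    rw [h4]
    exact div_le_div_of_nonneg_right (by linarith) (by positivity)
  have hMD : P.real {ω | B' * n0 * q ≤ D ω} ≤ 2 * (1 + C0) / (B' * q ^ 2) := by
    have h1 := mul_meas_ge_le_integral_of_nonneg (Filter.Eventually.of_forall hD0) hDi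
      (B' * n0 * q)
    have h2 : 0 < B' * n0 * q := by positivity
    have h3 := h1.trans hED
    rw [mul_comm, ← le_div_iff₀ h2] at h3
    refine h3.trans ?_
    have h4 : (1 + C0) * n0 / (B' * n0 * q) = (1 + C0) * q / (B' * q ^ 2) := by
      field_simp
    rw [h4]
    refine div_le_div_of_nonneg_right ?_ (by positivity)
    nlinarith
  -- the inclusion
  have hsub : {ω | ¬ Good W (t + T) B' (fun z => fwd W (cfg η ω) T w z /
      ∑ x, fwd W (cfg η ω) T w x)} ⊆
      ({ω | B' * q ^ 2 / Real.sqrt n0 ≤ Y ω} ∪ {ω | B' * n0 * q ≤ D ω}) ∪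
        {ω | 1 + XX W w T (cfg η ω) T < q} := by
    intro ω hω
    by_contra hcon
    rw [Set.mem_union, Set.mem_union, not_or, not_or] at hcon
    obtain ⟨⟨h1, h2⟩, h3⟩ := hcon
    rw [Set.mem_ofPred_eq, not_le] at h1 h2
    rw [Set.mem_ofPred_eq, not_lt] at h3
    apply hω
    have hFω : fwd W (cfg η ω) T w = F ω := by rw [hF]
    rw [hFω]
    obtain ⟨M, hM⟩ : ∃ M, M = ∑ z, F ω z := ⟨_, rfl⟩
    rw [← hM]
    have hM2' : q ≤ M := by
      rw [hM, hFM]
      exact h3
    have hM0 : 0 < M := by linarith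
    refine ⟨fun x => div_nonneg (hF0 ω x) hM0.le, ?_, ?_, ?_, ?_⟩
    · rw [← Finset.sum_div, ← hM, div_self hM0.ne']
    · intro x hx
      apply hFc ω x
      intro h0
      apply hx
      rw [h0, zero_div]
    · intro n hn1 hn2
      rw [ov_div]
      have hn0' : (0 : ℝ) < n := by exact_mod_cast hn1
      have hns : 0 < Real.sqrt n := Real.sqrt_pos.2 hn0'
      obtain ⟨-, -, -, -, hmon, -⟩ := hOV V C0 N0 W (F ω) (hF0 ω)
      have h4 : Real.sqrt n * ov W (F ω) n ≤ Y ω := by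
        refine (sqrt_le n (fun m => ov W (F ω) m) (ov W (F ω) n) (ov_nonneg W _ n) ?_).trans ?_
        · intro m _ hm
          have h5 := hmon m (n - m)
          rwa [Nat.add_sub_cancel' hm] at h5
        · rw [hY]
          refine Finset.sum_le_sum_of_subset_of_nonneg ?_ ?_
          · intro m hm
            rw [Finset.mem_Icc] at hm ⊢
            omega
          · intro m _ _
            exact mul_nonneg (by positivity) (ov_nonneg W _ m)
      have h5 : ov W (F ω) n ≤ B' * q ^ 2 / Real.sqrt n0 / Real.sqrt n := by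
        rw [le_div_iff₀ hns, mul_comm]
        exact h4.trans h1.le
      have h6 : ov W (F ω) n / M ^ 2 ≤ ov W (F ω) n / q ^ 2 := by
        refine div_le_div_of_nonneg_left (ov_nonneg W (F ω) n) (by positivity) ?_
        exact pow_le_pow_left₀ hq0.le hM2' 2
      refine h6.trans ?_
      rw [← hn0, Real.sqrt_mul hn0'.le]
      have h9 : B' * q ^ 2 / Real.sqrt n0 / Real.sqrt n / q ^ 2 = B' / (Real.sqrt n * Real.sqrt n0) := by
        field_simp
      rw [← h9]
      exact div_le_div_of_nonneg_right h5 (by positivity)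
    · have h4 : ∑ x, F ω x / M * W.d x = D ω / M := by
        rw [hD, Finset.sum_div]
        exact Finset.sum_congr rfl fun x _ => by ring
      rw [h4, div_le_iff₀ hM0, ← hn0]
      have h5 : B' * n0 * q ≤ B' * n0 * M :=
        mul_le_mul_of_nonneg_left hM2' (by positivity)
      exact h2.le.trans h5
  calc P.real _ ≤ P.real (({ω | B' * q ^ 2 / Real.sqrt n0 ≤ Y ω} ∪ {ω | B' * n0 * q ≤ D ω}) ∪
        {ω | 1 + XX W w T (cfg η ω) T < q}) := measureReal_mono hsub
    _ ≤ P.real ({ω | B' * q ^ 2 / Real.sqrt n0 ≤ Y ω} ∪ {ω | B' * n0 * q ≤ D ω}) +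
        P.real {ω | 1 + XX W w T (cfg η ω) T < q} := measureReal_union_le _ _
    _ ≤ (P.real {ω | B' * q ^ 2 / Real.sqrt n0 ≤ Y ω} + P.real {ω | B' * n0 * q ≤ D ω}) +
        P.real {ω | 1 + XX W w T (cfg η ω) T < q} := by
        have := measureReal_union_le (μ := P) {ω | B' * q ^ 2 / Real.sqrt n0 ≤ Y ω}
          {ω | B' * n0 * q ≤ D ω}
        linarith
    _ ≤ (8 * Cc + 2 * (1 + C0)) / (B' * q ^ 2) + P.real {ω | 1 + XX W w T (cfg η ω) T < q} := by
        rw [add_div]
        linarith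

end Pool.Agent.H350.CW
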